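import Pool.Agent.H87.QP.Targets

/-!
# Board qp_modules, row FOU: a mean of translates is a sum of few exponentials
-/

set_option autoImplicit false

namespace Pool.Agent.H89.QP

open Finset Pool.Agent.H87.QP
open ZMod (stdAddChar)
open Pool.Agent.H6.N4D (ee)

variable {M : ℕ} [NeZero M]

theorem fou_ee (ξ x : ZMod M) :
    ee ((ξ.val : ℝ) / M * x.val) = stdAddChar (ξ * x) := by
  have h1 : ξ * x = (((ξ.val * x.val : ℕ) : ℤ) : ZMod M) := by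
    push_cast
    rw [ZMod.natCast_zmod_val, ZMod.natCast_zmod_val]
  rw [h1, ZMod.stdAddChar_coe]
  unfold Pool.Agent.H6.N4D.ee
  congr 1
  push_cast
  ring

theorem fou_norm (x : ZMod M) : ‖(stdAddChar x : ℂ)‖ = 1 := by
  rw [ZMod.stdAddChar_apply]
  simp

theorem fou_conj (x : ZMod M) :
    (starRingEnd ℂ) (stdAddChar x : ℂ) = stdAddChar (-x) :=
  (AddChar.map_neg_eq_conj _ _).symm

theorem fou_orth (t : ZMod M) :
    ∑ x : ZMod M, (stdAddChar (t * x) : ℂ) = if t = 0 then (M : ℂ) else 0 := by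
  have h1 := AddChar.sum_mulShift (R' := ℂ) t (ZMod.isPrimitive_stdAddChar M)
  rw [ZMod.card] at h1
  rw [← sum_congr rfl fun x _ => by rw [mul_comm x t]] at h1
  rw [h1]
  split_ifs <;> simp

theorem fou_orth' (t : ZMod M) :
    ∑ x : ZMod M, (stdAddChar (x * t) : ℂ) = if t = 0 then (M : ℂ) else 0 := by
  rw [← fou_orth t]
  exact sum_congr rfl fun x _ => by rw [mul_comm]

/-- Parseval for finite sums of exponentials -/
theorem fou_parseval (T : Finset (ZMod M)) (b : ZMod M → ℂ) :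
    ∑ x : ZMod M, ‖∑ ξ ∈ T, b ξ * stdAddChar (ξ * x)‖ ^ 2 = M * ∑ ξ ∈ T, ‖b ξ‖ ^ 2 := by
  have h1 : ∀ z : ℂ, ((‖z‖ ^ 2 : ℝ) : ℂ) = z * (starRingEnd ℂ) z := by
    intro z
    rw [Complex.mul_conj, Complex.normSq_eq_norm_sq]
  have h2 : ((∑ x : ZMod M, ‖∑ ξ ∈ T, b ξ * stdAddChar (ξ * x)‖ ^ 2 : ℝ) : ℂ) =
      ((M * ∑ ξ ∈ T, ‖b ξ‖ ^ 2 : ℝ) : ℂ) := by
    rw [Complex.ofReal_sum]
    have h3 : ∀ x : ZMod M, ((‖∑ ξ ∈ T, b ξ * stdAddChar (ξ * x)‖ ^ 2 : ℝ) : ℂ) =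
        ∑ ξ ∈ T, ∑ ξ' ∈ T, b ξ * (starRingEnd ℂ) (b ξ') * stdAddChar ((ξ - ξ') * x) := by
      intro x
      rw [h1, map_sum, sum_mul_sum]
      refine sum_congr rfl fun ξ _ => sum_congr rfl fun ξ' _ => ?_
      rw [map_mul (starRingEnd ℂ), fou_conj, sub_mul, sub_eq_add_neg, AddChar.map_add_eq_mul]
      ring
    rw [sum_congr rfl fun x _ => h3 x, sum_comm]
    push_cast
    rw [mul_sum]
    refine sum_congr rfl fun ξ hξ => ?_
    rw [sum_comm]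
    have h4 : ∀ ξ' ∈ T, ∑ x : ZMod M, b ξ * (starRingEnd ℂ) (b ξ') *
        (stdAddChar ((ξ - ξ') * x) : ℂ) = if ξ' = ξ then (M : ℂ) * (b ξ *
          (starRingEnd ℂ) (b ξ)) else 0 := by
      intro ξ' _
      rw [← mul_sum, fou_orth]
      by_cases h : ξ' = ξ
      · rw [if_pos h, if_pos (sub_eq_zero.2 h.symm), h]
        ring
      · rw [if_neg h, if_neg (fun h0 => h (sub_eq_zero.1 h0).symm), mul_zero]
    rw [sum_congr rfl h4, sum_ite_eq' T ξ, if_pos hξ, ← h1]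
    push_cast
    ring
  exact_mod_cast h2

/-- Fourier coefficients -/
noncomputable def fgh (g : ZMod M → ℂ) (ξ : ZMod M) : ℂ :=
  (∑ x : ZMod M, g x * stdAddChar (ξ * -x)) / M

theorem fou_inv (g : ZMod M → ℂ) (y : ZMod M) :
    g y = ∑ ξ : ZMod M, fgh g ξ * stdAddChar (ξ * y) := by
  have hM : (M : ℂ) ≠ 0 := Nat.cast_ne_zero.2 (NeZero.ne M)
  have h1 : ∀ ξ : ZMod M, fgh g ξ * stdAddChar (ξ * y) =
      ∑ x : ZMod M, g x * stdAddChar (ξ * (y - x)) / M := by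
    intro ξ
    unfold fgh
    rw [div_mul_eq_mul_div, sum_mul, sum_div]
    refine sum_congr rfl fun x _ => ?_
    rw [mul_assoc, ← AddChar.map_add_eq_mul, ← mul_add, neg_add_eq_sub]
  rw [sum_congr rfl fun ξ _ => h1 ξ, sum_comm]
  have h2 : ∀ x : ZMod M, ∑ ξ : ZMod M, g x * (stdAddChar (ξ * (y - x)) : ℂ) / M =
      if x = y then g y else 0 := by
    intro x
    rw [← sum_div, ← mul_sum, fou_orth']
    by_cases h : x = y
    · rw [if_pos h, if_pos (sub_eq_zero.2 h.symm), h]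
      field_simp
    · rw [if_neg h, if_neg (fun h0 => h (sub_eq_zero.1 h0).symm), mul_zero, zero_div]
  rw [sum_congr rfl fun x _ => h2 x, sum_ite_eq' univ y, if_pos (mem_univ y)]

theorem fou_fgh_le (g : ZMod M → ℂ) (hg : ∀ x, ‖g x‖ ≤ 1) (ξ : ZMod M) : ‖fgh g ξ‖ ≤ 1 := by
  have hM : (0 : ℝ) < M := Nat.cast_pos.2 (Nat.pos_of_ne_zero (NeZero.ne M))
  unfold fgh
  rw [norm_div, Complex.norm_natCast, div_le_one hM]
  refine (norm_sum_le _ _).trans ?_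
  calc ∑ x : ZMod M, ‖g x * (stdAddChar (ξ * -x) : ℂ)‖ ≤ ∑ x : ZMod M, (1 : ℝ) := by
        refine sum_le_sum fun x _ => ?_
        rw [norm_mul, fou_norm, mul_one]
        exact hg x
    _ = M := by
        rw [sum_const, card_univ, ZMod.card, nsmul_eq_mul, mul_one]

theorem fou_sum_fgh (g : ZMod M → ℂ) (hg : ∀ x, ‖g x‖ ≤ 1) :
    ∑ ξ : ZMod M, ‖fgh g ξ‖ ^ 2 ≤ 1 := by
  have hM : (0 : ℝ) < M := Nat.cast_pos.2 (Nat.pos_of_ne_zero (NeZero.ne M))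
  have h1 := fou_parseval univ (fgh g)
  have h2 : ∑ x : ZMod M, ‖∑ ξ : ZMod M, fgh g ξ * (stdAddChar (ξ * x) : ℂ)‖ ^ 2 ≤ M := by
    calc ∑ x : ZMod M, ‖∑ ξ : ZMod M, fgh g ξ * (stdAddChar (ξ * x) : ℂ)‖ ^ 2
        ≤ ∑ x : ZMod M, (1 : ℝ) := by
          refine sum_le_sum fun x _ => ?_
          rw [← fou_inv g x]
          have h3 := hg x
          have h4 := norm_nonneg (g x)
          nlinarith
      _ = M := by
          rw [sum_const, card_univ, ZMod.card, nsmul_eq_mul, mul_one]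
  rw [h1] at h2
  by_contra hc
  push Not at hc
  nlinarith

/-- the weight of a pair -/
noncomputable def fw (ε : ℕ → ℝ) (p : ℕ × ℕ) : ℝ := ε p.1 * ε p.2

/-- the shift of a pair -/
noncomputable def fs (M h : ℕ) (p : ℕ × ℕ) : ZMod M :=
  ((p.1 * h : ℕ) : ZMod M) - ((p.2 * h : ℕ) : ZMod M)

/-- the multiplier -/
noncomputable def fA (h : ℕ) (Q : Finset ℕ) (ε : ℕ → ℝ) (ξ : ZMod M) : ℂ :=
  ∑ p ∈ Q ×ˢ Q, ((fw ε p : ℝ) : ℂ) * stdAddChar (ξ * fs M h p)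

theorem fou_fA_le (h : ℕ) (Q : Finset ℕ) (ε : ℕ → ℝ) (hε : ∀ q, |ε q| ≤ 1) (ξ : ZMod M) :
    ‖fA h Q ε ξ‖ ≤ (Q.card : ℝ) ^ 2 := by
  unfold fA
  refine (norm_sum_le _ _).trans ?_
  calc ∑ p ∈ Q ×ˢ Q, ‖((fw ε p : ℝ) : ℂ) * (stdAddChar (ξ * fs M h p) : ℂ)‖
      ≤ ∑ p ∈ Q ×ˢ Q, (1 : ℝ) := by
        refine sum_le_sum fun p _ => ?_
        rw [norm_mul, fou_norm, mul_one, Complex.norm_real, Real.norm_eq_abs]
        unfold fw
        rw [abs_mul]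
        exact mul_le_one₀ (hε _) (abs_nonneg _) (hε _)
    _ = (Q.card : ℝ) ^ 2 := by
        rw [sum_const, card_product, nsmul_eq_mul, mul_one]
        push_cast
        ring

/-- the multiplier is real -/
theorem fou_fA_real (h : ℕ) (Q : Finset ℕ) (ε : ℕ → ℝ) (ξ : ZMod M) :
    (starRingEnd ℂ) (fA h Q ε ξ) = fA h Q ε ξ := by
  have h1 : fA h Q ε ξ = (∑ q ∈ Q, ((ε q : ℝ) : ℂ) * stdAddChar (ξ * ((q * h : ℕ) : ZMod M))) *
      (starRingEnd ℂ) (∑ q ∈ Q, ((ε q : ℝ) : ℂ) * stdAddChar (ξ * ((q * h : ℕ) : ZMod M))) := by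
    unfold fA
    rw [map_sum, sum_mul_sum, sum_product]
    refine sum_congr rfl fun q _ => sum_congr rfl fun q' _ => ?_
    unfold fw fs
    rw [map_mul (starRingEnd ℂ), fou_conj, Complex.conj_ofReal, mul_sub, sub_eq_add_neg,
      AddChar.map_add_eq_mul]
    push_cast
    ring
  rw [h1, map_mul, Complex.conj_conj, mul_comm]

theorem fou_energy (h : ℕ) (Q : Finset ℕ) (ε : ℕ → ℝ) (hε : ∀ q, |ε q| ≤ 1) (hh : 1 ≤ h)
    (hQ : ∀ q ∈ Q, 4 * (q * h) < M) :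
    ∑ ξ : ZMod M, ‖fA h Q ε ξ‖ ^ 2 ≤ M *
      ((((Q ×ˢ Q) ×ˢ (Q ×ˢ Q)).filter (fun x => x.1.1 + x.2.1 = x.1.2 + x.2.2)).card : ℝ) := by
  classical
  have h1 : ((∑ ξ : ZMod M, ‖fA h Q ε ξ‖ ^ 2 : ℝ) : ℂ) =
      ∑ x ∈ (Q ×ˢ Q) ×ˢ (Q ×ˢ Q), ((fw ε x.1 * fw ε x.2 : ℝ) : ℂ) *
        (if fs M h x.1 + fs M h x.2 = 0 then (M : ℂ) else 0) := by
    rw [Complex.ofReal_sum]
    have h2 : ∀ ξ : ZMod M, ((‖fA h Q ε ξ‖ ^ 2 : ℝ) : ℂ) =
        ∑ x ∈ (Q ×ˢ Q) ×ˢ (Q ×ˢ Q), ((fw ε x.1 * fw ε x.2 : ℝ) : ℂ) *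
          stdAddChar (ξ * (fs M h x.1 + fs M h x.2)) := by
      intro ξ
      have h3 : ((‖fA h Q ε ξ‖ ^ 2 : ℝ) : ℂ) = fA h Q ε ξ * fA h Q ε ξ := by
        rw [← Complex.normSq_eq_norm_sq, ← Complex.mul_conj, fou_fA_real]
      rw [h3]
      unfold fA
      rw [sum_mul_sum, ← sum_product']
      refine sum_congr rfl fun x _ => ?_
      rw [mul_add, AddChar.map_add_eq_mul]
      push_cast
      ring
    rw [sum_congr rfl fun ξ _ => h2 ξ, sum_comm]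
    refine sum_congr rfl fun x _ => ?_
    rw [← mul_sum, fou_orth']
  have h4 : ∑ ξ : ZMod M, ‖fA h Q ε ξ‖ ^ 2 =
      ∑ x ∈ (Q ×ˢ Q) ×ˢ (Q ×ˢ Q), (fw ε x.1 * fw ε x.2) *
        (if fs M h x.1 + fs M h x.2 = 0 then (M : ℝ) else 0) := by
    have h5 : ((∑ ξ : ZMod M, ‖fA h Q ε ξ‖ ^ 2 : ℝ) : ℂ) =
        ((∑ x ∈ (Q ×ˢ Q) ×ˢ (Q ×ˢ Q), (fw ε x.1 * fw ε x.2) *
          (if fs M h x.1 + fs M h x.2 = 0 then (M : ℝ) else 0) : ℝ) : ℂ) := by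
      rw [h1, Complex.ofReal_sum]
      refine sum_congr rfl fun x _ => ?_
      split_ifs <;> push_cast <;> ring
    exact_mod_cast h5
  rw [h4, card_eq_sum_ones, sum_filter]
  push_cast
  rw [mul_sum]
  refine sum_le_sum fun x hx => ?_
  rw [mem_product, mem_product, mem_product] at hx
  obtain ⟨⟨hx1, hx2⟩, hx3, hx4⟩ := hx
  have hw : fw ε x.1 * fw ε x.2 ≤ 1 := by
    refine (le_abs_self _).trans ?_
    unfold fw
    rw [abs_mul, abs_mul, abs_mul]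
    exact mul_le_one₀ (mul_le_one₀ (hε _) (abs_nonneg _) (hε _)) (by positivity)
      (mul_le_one₀ (hε _) (abs_nonneg _) (hε _))
  have hM0 : (0 : ℝ) ≤ M := Nat.cast_nonneg M
  by_cases h6 : fs M h x.1 + fs M h x.2 = 0
  · have h7 : x.1.1 + x.2.1 = x.1.2 + x.2.2 := by
      unfold fs at h6
      have h8 : ((x.1.1 * h + x.2.1 * h : ℕ) : ZMod M) =
          ((x.1.2 * h + x.2.2 * h : ℕ) : ZMod M) := by
        push_cast at h6 ⊢
        linear_combination h6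
      rw [ZMod.natCast_eq_natCast_iff'] at h8
      have e1 := hQ _ hx1
      have e2 := hQ _ hx2
      have e3 := hQ _ hx3
      have e4 := hQ _ hx4
      rw [Nat.mod_eq_of_lt (by omega), Nat.mod_eq_of_lt (by omega)] at h8
      have h9 : (x.1.1 + x.2.1) * h = (x.1.2 + x.2.2) * h := by
        rw [Nat.add_mul, Nat.add_mul]
        exact h8
      exact Nat.eq_of_mul_eq_mul_right hh h9
    rw [if_pos h6, if_pos h7]
    nlinarith
  · rw [if_neg h6, mul_zero]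
    split_ifs <;> simp

theorem pf_FOU : T_FOU := by
  classical
  intro M h _ Q ε g τ hτ hh hQne hQ hε hg
  have hM : (0 : ℝ) < M := Nat.cast_pos.2 (Nat.pos_of_ne_zero (NeZero.ne M))
  have hQc : (0 : ℝ) < Q.card := Nat.cast_pos.2 (card_pos.2 hQne)
  have hQc' : (Q.card : ℂ) ≠ 0 := by
    have : Q.card ≠ 0 := (card_pos.2 hQne).ne'
    exact_mod_cast this
  obtain ⟨b, hb⟩ : ∃ b : ZMod M → ℂ, b = fun ξ => fgh g ξ * fA h Q ε ξ / (Q.card : ℂ) ^ 2 :=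
    ⟨_, rfl⟩
  have hbn : ∀ ξ, ‖b ξ‖ = ‖fgh g ξ‖ * (‖fA h Q ε ξ‖ / (Q.card : ℝ) ^ 2) := by
    intro ξ
    rw [hb]
    change ‖fgh g ξ * fA h Q ε ξ / (Q.card : ℂ) ^ 2‖ = _
    rw [norm_div, norm_mul, norm_pow, Complex.norm_natCast, mul_div_assoc]
  have hA1 : ∀ ξ : ZMod M, ‖fA h Q ε ξ‖ / (Q.card : ℝ) ^ 2 ≤ 1 := by
    intro ξ
    rw [div_le_one (by positivity)]
    exact fou_fA_le h Q ε hε ξ
  have hb1 : ∀ ξ, ‖b ξ‖ ≤ 1 := by
    intro ξ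
    rw [hbn]
    exact mul_le_one₀ (fou_fgh_le g hg ξ) (by positivity) (hA1 ξ)
  refine ⟨univ.filter fun ξ => τ ≤ ‖fA h Q ε ξ‖ / (Q.card : ℝ) ^ 2, b, ?_, hb1, ?_⟩
  · -- the number of exponentials
    rw [le_div_iff₀ (by positivity)]
    have h1 : ∑ ξ ∈ univ.filter (fun ξ : ZMod M => τ ≤ ‖fA h Q ε ξ‖ / (Q.card : ℝ) ^ 2), τ ^ 2 ≤
        ∑ ξ : ZMod M, (‖fA h Q ε ξ‖ / (Q.card : ℝ) ^ 2) ^ 2 := by
      refine (sum_le_sum fun ξ hξ => ?_).trans (sum_le_sum_of_subset_of_nonneg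
        (filter_subset _ univ) fun ξ _ _ => sq_nonneg _)
      rw [mem_filter] at hξ
      exact pow_le_pow_left₀ hτ.le hξ.2 2
    have h2 : ∑ ξ : ZMod M, (‖fA h Q ε ξ‖ / (Q.card : ℝ) ^ 2) ^ 2 =
        (∑ ξ : ZMod M, ‖fA h Q ε ξ‖ ^ 2) / (Q.card : ℝ) ^ 4 := by
      rw [sum_div]
      refine sum_congr rfl fun ξ _ => ?_
      rw [div_pow, ← pow_mul]
    rw [sum_const, nsmul_eq_mul, h2, le_div_iff₀ (by positivity)] at h1
    have h3 := fou_energy (M := M) h Q ε hε hh hQ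
    calc _ = ((univ.filter fun ξ : ZMod M => τ ≤ ‖fA h Q ε ξ‖ / (Q.card : ℝ) ^ 2).card : ℝ) *
          τ ^ 2 * (Q.card : ℝ) ^ 4 := by ring
      _ ≤ _ := h1.trans h3
  · -- the remainder
    have hF : ∀ x : ZMod M, (∑ q ∈ Q, ∑ q' ∈ Q, ((ε q * ε q' : ℝ) : ℂ) *
        g (x + ((q * h : ℕ) : ZMod M) - ((q' * h : ℕ) : ZMod M))) / (Q.card : ℂ) ^ 2 =
        ∑ ξ : ZMod M, b ξ * stdAddChar (ξ * x) := by
      intro x
      have h1 : ∑ q ∈ Q, ∑ q' ∈ Q, ((ε q * ε q' : ℝ) : ℂ) *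
          g (x + ((q * h : ℕ) : ZMod M) - ((q' * h : ℕ) : ZMod M)) =
          ∑ ξ : ZMod M, fgh g ξ * fA h Q ε ξ * stdAddChar (ξ * x) := by
        have h2 : ∀ ξ : ZMod M, fgh g ξ * fA h Q ε ξ * (stdAddChar (ξ * x) : ℂ) =
            ∑ p ∈ Q ×ˢ Q, ((fw ε p : ℝ) : ℂ) *
              (fgh g ξ * stdAddChar (ξ * (x + fs M h p))) := by
          intro ξ
          unfold fA
          rw [mul_sum, sum_mul]
          refine sum_congr rfl fun p _ => ?_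
          rw [mul_add, AddChar.map_add_eq_mul]
          ring
        rw [sum_congr rfl fun ξ _ => h2 ξ]
        symm
        rw [sum_comm, sum_product]
        refine sum_congr rfl fun q _ => sum_congr rfl fun q' _ => ?_
        symm
        rw [← mul_sum, ← fou_inv g, add_sub_assoc]
        rfl
      rw [h1, sum_div]
      refine sum_congr rfl fun ξ _ => ?_
      rw [hb]
      ring
    have hR : ∀ x : ZMod M, (∑ q ∈ Q, ∑ q' ∈ Q, ((ε q * ε q' : ℝ) : ℂ) *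
        g (x + ((q * h : ℕ) : ZMod M) - ((q' * h : ℕ) : ZMod M))) / (Q.card : ℂ) ^ 2 -
        ∑ ξ ∈ univ.filter (fun ξ : ZMod M => τ ≤ ‖fA h Q ε ξ‖ / (Q.card : ℝ) ^ 2),
          b ξ * ee ((ξ.val : ℝ) / M * x.val) =
        ∑ ξ ∈ univ.filter (fun ξ : ZMod M => ¬ τ ≤ ‖fA h Q ε ξ‖ / (Q.card : ℝ) ^ 2),
          b ξ * stdAddChar (ξ * x) := by
      intro x
      rw [hF x, ← sum_filter_add_sum_filter_not univ
        (fun ξ : ZMod M => τ ≤ ‖fA h Q ε ξ‖ / (Q.card : ℝ) ^ 2)]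
      have h3 : ∑ ξ ∈ univ.filter (fun ξ : ZMod M => τ ≤ ‖fA h Q ε ξ‖ / (Q.card : ℝ) ^ 2),
          b ξ * ee ((ξ.val : ℝ) / M * x.val) =
          ∑ ξ ∈ univ.filter (fun ξ : ZMod M => τ ≤ ‖fA h Q ε ξ‖ / (Q.card : ℝ) ^ 2),
          b ξ * stdAddChar (ξ * x) := sum_congr rfl fun ξ _ => by rw [fou_ee]
      rw [h3]
      ring
    rw [sum_congr rfl fun x _ => by rw [hR x], fou_parseval]
    have h4 : ∑ ξ ∈ univ.filter (fun ξ : ZMod M => ¬ τ ≤ ‖fA h Q ε ξ‖ / (Q.card : ℝ) ^ 2),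
        ‖b ξ‖ ^ 2 ≤ τ ^ 2 := by
      calc ∑ ξ ∈ univ.filter (fun ξ : ZMod M => ¬ τ ≤ ‖fA h Q ε ξ‖ / (Q.card : ℝ) ^ 2),
            ‖b ξ‖ ^ 2 ≤ ∑ ξ ∈ univ.filter
              (fun ξ : ZMod M => ¬ τ ≤ ‖fA h Q ε ξ‖ / (Q.card : ℝ) ^ 2),
              ‖fgh g ξ‖ ^ 2 * τ ^ 2 := by
            refine sum_le_sum fun ξ hξ => ?_
            rw [mem_filter, not_le] at hξ
            rw [hbn, mul_pow]
            refine mul_le_mul_of_nonneg_left ?_ (sq_nonneg _)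
            exact pow_le_pow_left₀ (by positivity) hξ.2.le 2
        _ ≤ ∑ ξ : ZMod M, ‖fgh g ξ‖ ^ 2 * τ ^ 2 :=
            sum_le_sum_of_subset_of_nonneg (filter_subset _ univ) fun ξ _ _ => by positivity
        _ = (∑ ξ : ZMod M, ‖fgh g ξ‖ ^ 2) * τ ^ 2 := by rw [sum_mul]
        _ ≤ 1 * τ ^ 2 := mul_le_mul_of_nonneg_right (fou_sum_fgh g hg) (sq_nonneg _)
        _ = τ ^ 2 := one_mul _
    nlinarith

end Pool.Agent.H89.QP
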